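import Pool.Agent.U327.MI.Fin

/-!
# The case `p = ∞` with its cases of equality, and linear stability up to `p = ∞`

For every `n ≥ 1` and every convex body `K` of `ℝⁿ`, in every position:

* `p = ∞`: `M_∞(K) ≥ inf_x M_∞(Δ_n - x) = (n+1)^(n+1)/n!`, with equality if and only if `K` is a
  simplex with centroid at the origin;
* `p = ∞`: there is `c > 0`, depending on `n` only, and for each `K` a number `δ ≥ 0`, a simplex `T`
  and a point `x` with `x + (T - x)/(1+δ) ⊆ K ⊆ T` and `M_∞(K) ≥ (1 + c δ) inf_x M_∞(Δ_n - x)`;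
* linear stability with one constant for all `p ∈ [p₀(n), ∞]`, in terms of the deviation
  `dev K = 1 - |K|/|T|`, `T` the smallest simplex containing `K`:
  `M_p(K) ≥ (1 + c dev K) inf_x M_p(Δ_n - x)`; and with one constant on `[q, ∞)` for every `q > 0`
  such that Q1 holds, with its case of equality, for all `p ≥ q`.

The inequality for `p = ∞` and the form of the bodies of smallest volume product are theorems of the
starting library (`Pool.Agent.TH537.EQ`); the starting result `LargeP` treats all finite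
`p ≥ p₀(n)`, without stability, and `SmallExponents` has linear stability locally uniformly in
`p < ∞`.

Outline.  Near simplices, in the position in which the smallest circumscribed simplex is the centred
simplex and `1 + δ` is the largest value of the gauge of `K` on it: if `δ ≥ ε/p`, the gain and the
loss of volume of the library (`S_gain`, `S_loss`) leave a factor `e^(c δ)`, and if `δ ≤ ε/p` the
first order inequality `∫_(Δ∖K) w_p ≥ (1 + η) p |Δ∖K|` leaves `1 + c |Δ∖K|/|Δ|`.  For a fixed body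
only the first case matters as `p → ∞`.  Far from simplices: the equality case and compactness.
-/

set_option autoImplicit false

noncomputable section

open MeasureTheory Set
open scoped ENNReal

namespace Pool.Agent.Results.MP_5f4cdd_gt.MahlerStability

/-- convex bodies in `ℝⁿ` (in any position) -/
def Body {n : ℕ} (K : Set (Fin n → ℝ)) : Prop := Convex ℝ K ∧ IsCompact K ∧ (interior K).Nonempty

/-- The `L^p`-Mahler volume `M_p(K) = vol(K) ∫ exp(-h_{p,K}(y)) dy` for `0 < p < ∞`, where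
`exp(-h_{p,K}(y)) = ((1/vol K) ∫_K exp(p⟨x,y⟩) dx)^(-1/p)`. -/
def mahlerVolume {n : ℕ} (p : ℝ) (K : Set (Fin n → ℝ)) : ℝ≥0∞ :=
  volume K * ∫⁻ y : Fin n → ℝ, ENNReal.ofReal
    (((∫ x in K, Real.exp (p * ∑ i, x i * y i)) / (volume K).toReal) ^ (-(1 / p)))

/-- The classical Mahler volume `M_∞(K) = vol(K) ∫ exp(-h_K(y)) dy` (the case `p = ∞`), where
`h_K(y) = sup_{x ∈ K} ⟨x, y⟩`. -/
def mahlerInf {n : ℕ} (K : Set (Fin n → ℝ)) : ℝ≥0∞ :=
  volume K * ∫⁻ y : Fin n → ℝ, ENNReal.ofReal
    (Real.exp (-(sSup ((fun x : Fin n → ℝ => ∑ i, x i * y i) '' K))))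

/-- the polar body -/
def polarBody {n : ℕ} (K : Set (Fin n → ℝ)) : Set (Fin n → ℝ) :=
  {y | ∀ x ∈ K, ∑ i, x i * y i ≤ 1}

/-- the translate `K - z` -/
def translate {n : ℕ} (K : Set (Fin n → ℝ)) (z : Fin n → ℝ) : Set (Fin n → ℝ) :=
  (fun x : Fin n → ℝ => x - z) '' K

/-- the standard simplex `Δ_n` -/
def simplex (n : ℕ) : Set (Fin n → ℝ) := {z | (∀ i, 0 ≤ z i) ∧ ∑ i, z i ≤ 1}

/-- the infimum of `M_p(Δ_n - x)` over `x ∈ Δ_n` -/
def simplexInf (n : ℕ) (p : ℝ) : ℝ≥0∞ :=
  ⨅ x ∈ simplex n, mahlerVolume p (translate (simplex n) x)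

/-- the infimum of `M_∞(Δ_n - x)` over `x ∈ Δ_n` -/
def simplexInfTop (n : ℕ) : ℝ≥0∞ := ⨅ x ∈ simplex n, mahlerInf (translate (simplex n) x)

/-- `K` is a simplex with centroid at the origin -/
def CentredSimplex {n : ℕ} (K : Set (Fin n → ℝ)) : Prop :=
  ∃ v : Fin (n + 1) → (Fin n → ℝ), AffineIndependent ℝ v ∧ ∑ i, v i = 0 ∧
    K = convexHull ℝ (Set.range v)

/-- `K` lies between a simplex `T` and its image under the contraction with some centre `x` and the
factor `1/(1+δ)`: `x + (T - x)/(1+δ) ⊆ K ⊆ T` -/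
def Between {n : ℕ} (δ : ℝ) (K : Set (Fin n → ℝ)) : Prop :=
  ∃ v : Fin (n + 1) → (Fin n → ℝ), AffineIndependent ℝ v ∧ ∃ x : Fin n → ℝ,
    K ⊆ convexHull ℝ (Set.range v) ∧
      ∀ y ∈ convexHull ℝ (Set.range v), x + (1 + δ)⁻¹ • (y - x) ∈ K

/-- the smallest volume of a simplex (hull of at most `n + 1` points) containing `K` -/
def simplexHullVolume {n : ℕ} (K : Set (Fin n → ℝ)) : ℝ :=
  sInf {v | ∃ Q : Finset (Fin n → ℝ), Q.card ≤ n + 1 ∧ K ⊆ convexHull ℝ (Q : Set (Fin n → ℝ)) ∧
    v = (volume (convexHull ℝ (Q : Set (Fin n → ℝ)))).toReal}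

/-- the deviation of `K` from simplices, `1 - |K|/|T|` for the smallest simplex `T ⊇ K` -/
def deviation {n : ℕ} (K : Set (Fin n → ℝ)) : ℝ := 1 - (volume K).toReal / simplexHullVolume K

/-- good exponents: Q1 holds for `p`, with equality exactly for the simplices with centroid at the
origin -/
def Good (n : ℕ) (p : ℝ) : Prop :=
  ∀ K : Set (Fin n → ℝ), Body K → simplexInf n p ≤ mahlerVolume p K ∧
    (mahlerVolume p K = simplexInf n p ↔ CentredSimplex K)

/-- linear stability with the constant `c` -/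
def Stable (n : ℕ) (c p : ℝ) : Prop :=
  ∀ K : Set (Fin n → ℝ), Body K →
    ENNReal.ofReal (1 + c * deviation K) * simplexInf n p ≤ mahlerVolume p K

lemma body_iff {n : ℕ} {K : Set (Fin n → ℝ)} (h : Body K) : Pool.Agent.N563.SE.Body K :=
  ⟨h.2.1, h.1, h.2.2⟩

lemma iff_body {n : ℕ} {K : Set (Fin n → ℝ)} (h : Pool.Agent.N563.SE.Body K) : Body K :=
  ⟨h.conv, h.cpt, h.int⟩

lemma infp_eq {n : ℕ} {p : ℝ} (hp : 0 < p) :
    simplexInf n p = Pool.Agent.H131R5.LM.Mp p (Pool.Agent.H131R5.LM.Sn n) := by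
  apply le_antisymm
  · have h2 := iInf₂_le (f := fun (x : Fin n → ℝ) (_ : x ∈ simplex n) =>
      mahlerVolume p (translate (simplex n) x))
      _ (Pool.Agent.H131R5.LM.center_mem (n := n))
    rw [← Pool.Agent.H131R5.LM.image_Dn]
    exact h2
  · refine le_iInf₂ fun x _ => ?_
    have h := Pool.Agent.TH649.LOC.Mp_shift_le (n := n) hp (x - fun _ => 1 / ((n:ℝ) + 1))
    have e : (fun y : Fin n → ℝ => y - (x - fun _ => 1 / ((n:ℝ) + 1))) ''
        Pool.Agent.H131R5.LM.Sn n = translate (simplex n) x := by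
      rw [← Pool.Agent.H131R5.LM.image_Dn, Set.image_image]
      refine Set.image_congr fun z _ => ?_
      abel
    rw [e] at h
    exact h

lemma infi_eq (n : ℕ) : simplexInfTop n = Pool.Agent.U327.MI.Si n := Pool.Agent.U327.MI.infi_eq

lemma stable_of {n : ℕ} {c p : ℝ} (hp : 0 < p) (h : Pool.Agent.N563.UL.Stab n c p) :
    Stable n c p := by
  unfold Stable
  rw [infp_eq hp]
  exact fun K hK => h K (body_iff hK)

lemma good_of {n : ℕ} {p : ℝ} (hp : 0 < p) (h : Good n p) : Pool.Agent.N563.UL.Good n p := by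
  intro K hK
  have h1 := h K (iff_body hK)
  rw [infp_eq hp] at h1
  refine ⟨h1.1, fun he => ?_⟩
  obtain ⟨v, _, _, hv⟩ := h1.2.1 he
  classical
  refine ⟨Finset.univ.image v, Finset.card_image_le.trans (by simp), ?_⟩
  rw [Finset.coe_image, Finset.coe_univ, Set.image_univ]
  exact hv

lemma polar_form {n : ℕ} {K : Set (Fin n → ℝ)} (hK : Body K) (h0 : (0 : Fin n → ℝ) ∈ interior K) :
    mahlerInf K = (n.factorial : ℝ≥0∞) * (volume K * volume (polarBody K)) := by
  have h := Pool.Agent.W570.AV.mah_eq (z := 0) hK.1 hK.2.1 h0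
  have e1 : Pool.Agent.W570.AV.tr 0 K = K := by
    unfold Pool.Agent.W570.AV.tr
    simp
  rw [e1] at h
  have e2 : Pool.Agent.H845R2.polc K = polarBody K := rfl
  rw [e2] at h
  calc mahlerInf K = volume K * (n.factorial * volume (polarBody K)) := h
    _ = _ := by ring

/-- **The case `p = ∞` with its cases of equality, and linear stability up to `p = ∞`.** -/
theorem result (n : ℕ) (hn : 1 ≤ n) :
    -- (1) `p = ∞`: the inequality of Q1 for all convex bodies, with its cases of equality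
    (∀ K : Set (Fin n → ℝ), Body K → simplexInfTop n ≤ mahlerInf K ∧
      (mahlerInf K = simplexInfTop n ↔ CentredSimplex K)) ∧
    -- the value of the infimum, and the classical form of the Mahler volume
    simplexInfTop n = ENNReal.ofReal (((n:ℝ) + 1) ^ (n + 1) / n.factorial) ∧
    (∀ K : Set (Fin n → ℝ), Body K → (0 : Fin n → ℝ) ∈ interior K →
      mahlerInf K = (n.factorial : ℝ≥0∞) * (volume K * volume (polarBody K))) ∧
    -- (2) `p = ∞`: linear stability with respect to the distance from simplices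
    (∃ c : ℝ, 0 < c ∧ ∀ K : Set (Fin n → ℝ), Body K → ∃ δ : ℝ, 0 ≤ δ ∧ Between δ K ∧
      ENNReal.ofReal (1 + c * δ) * simplexInfTop n ≤ mahlerInf K) ∧
    -- (3) linear stability with one constant for all `p ∈ [p₀, ∞]`
    (∃ p₀ c : ℝ, 0 < p₀ ∧ 0 < c ∧ (∀ p : ℝ, p₀ ≤ p → Stable n c p) ∧
      ∀ K : Set (Fin n → ℝ), Body K →
        ENNReal.ofReal (1 + c * deviation K) * simplexInfTop n ≤ mahlerInf K) ∧
    -- (4) linear stability with one constant on every ray of good exponents
    (∀ q : ℝ, 0 < q → (∀ p : ℝ, q ≤ p → Good n p) →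
      ∃ c : ℝ, 0 < c ∧ ∀ p : ℝ, q ≤ p → Stable n c p) := by
  refine ⟨fun K hK => ?_, infi_eq n, fun K hK h0 => polar_form hK h0, ?_, ?_, ?_⟩
  · rw [infi_eq]
    exact ⟨Pool.Agent.U327.MI.si_le (body_iff hK), Pool.Agent.U327.MI.eq_inf hn (body_iff hK)⟩
  · obtain ⟨c, hc, h⟩ := Pool.Agent.U327.MI.stab_inf hn
    rw [infi_eq]
    exact ⟨c, hc, fun K hK => h K (body_iff hK)⟩
  · obtain ⟨p₀, c, hp₀, hc, h⟩ := Pool.Agent.U327.MI.stab_large' hn
    rw [infi_eq]
    exact ⟨p₀, c, hp₀, hc, fun p hp => stable_of (hp₀.trans_le hp) (h p hp),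
      fun K hK => Pool.Agent.U327.MI.stab_lim h (body_iff hK)⟩
  · intro q hq hg
    obtain ⟨c, hc, h⟩ := Pool.Agent.U327.MI.stab_ray hn hq
      (fun p hp => good_of (hq.trans_le hp) (hg p hp))
    exact ⟨c, hc, fun p hp => stable_of (hq.trans_le hp) (h p hp)⟩

end Pool.Agent.Results.MP_5f4cdd_gt.MahlerStability
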