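import Pool.Agent.U330.DBE.Fin

/-!
# The non-symmetric `L^p`-Mahler inequality for bodies at bounded distance from ellipsoids

A convex body `K ⊂ ℝⁿ`, symmetric or not, is `s`-near an ellipsoid if `o + 𝓔 ⊂ K` and
`K - K ⊂ s 𝓔` for some ellipsoid `𝓔` centred at `0` and some point `o`.

* Then `|K - K| ≤ κⁿ |K|` in all dimensions, with `κ = κ(s) < 4` (for simplices the best constant is
  `4`; for `s < 4` the bound is trivial).
* So the inequality of Q1 holds for all these bodies and all `p ≥ p₀(s)` in ALL dimensions, and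
  `M_∞(K)` is larger than that of the simplices by an exponential factor.

Proof of the first point.  Choose `θ = a - b` at random in `K - K`, uniformly, `a, b ∈ K` (given `θ`,
let `a` be uniform in `K ∩ (θ + K)`).  If `x ∈ K` and `z = (a + x)/2` then `z - θ/2 = (b + x)/2 ∈ K`; so,
for uniform `x`, the density of `z` is at most `Λ/|K|` with `Λ = 4ⁿ |K|/|K - K|`.  Iteration: for
independent `a_1, ..., a_m` the density of `z = a_1/2 + a_2/4 + ... + a_m/2^m + x/2^m` is at most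
`Λ^m/|K|`.  Let `μ` be the mean of `a` and `L = K + [0, μ - o]`: it contains `μ + 𝓔`, and `|L| ≤ N
(1 + s/N)ⁿ |K|` for all `N`.  If `m ≥ 8 s²`, the mean of `a_1, ..., a_m` is in `μ + 𝓔/2` with probability
at least `1/2`, and then `z` is deep in `L`, since it is a convex combination of this mean, with the weight
`m/2^m`, and a point of `K`.  But the set of the deep points of `L` has volume at most `(1 + c)^(-n) |L|`.
The second point uses the starting result `DimensionFreeThreshold` (bodies with `|K - K| ≤ κ^n |K|`,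
`κ < 4`).
-/

set_option autoImplicit false

noncomputable section

open MeasureTheory
open scoped ENNReal Pointwise

namespace Pool.Agent.Results.MP_5f4cdd_gt.NearEllipsoids

/-- convex bodies in `ℝⁿ` (in any position) -/
def Body {n : ℕ} (K : Set (Fin n → ℝ)) : Prop := Convex ℝ K ∧ IsCompact K ∧ (interior K).Nonempty

/-- The `L^p`-Mahler volume `M_p(K) = vol(K) ∫ exp(-h_{p,K}(y)) dy` for `0 < p < ∞`, where
`exp(-h_{p,K}(y)) = ((1/vol K) ∫_K exp(p⟨x,y⟩) dx)^(-1/p)`. -/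
def mahlerVolume {n : ℕ} (p : ℝ) (K : Set (Fin n → ℝ)) : ℝ≥0∞ :=
  volume K * ∫⁻ y : Fin n → ℝ, ENNReal.ofReal
    (((∫ x in K, Real.exp (p * ∑ i, x i * y i)) / (volume K).toReal) ^ (-(1 / p)))

/-- The classical Mahler volume `M_∞(K) = vol(K) ∫ exp(-h_K(y)) dy` (the case `p = ∞`), where
`h_K(y) = sup_{x ∈ K} ⟨x, y⟩`. -/
def mahlerInf {n : ℕ} (K : Set (Fin n → ℝ)) : ℝ≥0∞ :=
  volume K * ∫⁻ y : Fin n → ℝ, ENNReal.ofReal
    (Real.exp (-(sSup ((fun x : Fin n → ℝ => ∑ i, x i * y i) '' K))))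

/-- the standard simplex `Δ_n` -/
def simplex (n : ℕ) : Set (Fin n → ℝ) := {z | (∀ i, 0 ≤ z i) ∧ ∑ i, z i ≤ 1}

/-- the infimum of `M_p(Δ_n - x)` over `x ∈ Δ_n` -/
def simplexInf (n : ℕ) (p : ℝ) : ℝ≥0∞ :=
  ⨅ x ∈ simplex n, mahlerVolume p ((fun z : Fin n → ℝ => z - x) '' simplex n)

/-- `K` is a simplex with centroid at the origin: the convex hull of `n + 1` affinely independent
points whose sum is `0` -/
def CentredSimplex {n : ℕ} (K : Set (Fin n → ℝ)) : Prop :=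
  ∃ v : Fin (n + 1) → (Fin n → ℝ), AffineIndependent ℝ v ∧ ∑ i, v i = 0 ∧
    K = convexHull ℝ (Set.range v)

/-- the polar set -/
def polar {n : ℕ} (K : Set (Fin n → ℝ)) : Set (Fin n → ℝ) := {y | ∀ x ∈ K, ∑ i, x i * y i ≤ 1}

/-- `K` is `s`-near an ellipsoid: for an ellipsoid `𝓔 = {x : |A x| ≤ 1}`, `A` linear and invertible,
and a point `o`, `o + 𝓔 ⊂ K` and `K - K ⊂ s 𝓔` -/
def NearEllipsoid {n : ℕ} (s : ℝ) (K : Set (Fin n → ℝ)) : Prop :=
  ∃ (A : (Fin n → ℝ) ≃ₗ[ℝ] (Fin n → ℝ)) (o : Fin n → ℝ),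
    (∀ x, ∑ i, (A x i) ^ 2 ≤ 1 → o + x ∈ K) ∧
    ∀ y ∈ K, ∀ z ∈ K, ∑ i, (A (y - z) i) ^ 2 ≤ s ^ 2

/-- `b_p(m) = (1+1/p)^((1+1/p)/2) (p/2π)^(1/(2p)) m^(1+1/(2p))` (it tends to `m` as `p → ∞`) -/
def bound (p m : ℝ) : ℝ :=
  ((1 + 1 / p) ^ ((1 + 1 / p) / 2) * (p / (2 * Real.pi)) ^ (1 / (2 * p))) * m ^ (1 + 1 / (2 * p))

open Pool.Agent.U330.DBE

lemma ne_body {n : ℕ} {s : ℝ} (hs : 0 < s) {K : Set (Fin n → ℝ)} (h : NearEllipsoid s K) :
    ∃ A : (Fin n → ℝ) →ₗ[ℝ] EuclideanSpace ℝ (Fin n), NE s A K := by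
  obtain ⟨A, o, h1, h2⟩ := h
  exact ⟨toE A.toLinearMap, ne_of hs h1 h2⟩

lemma vol_ne {n : ℕ} {K : Set (Fin n → ℝ)} (hB : Body K) : volume K ≠ 0 := by
  intro h0
  exact (isOpen_interior.measure_pos volume hB.2.2).ne'
    (le_antisymm ((measure_mono interior_subset).trans h0.le) zero_le)

/-- one `t < 1` for the whole class -/
lemma exists_t {s : ℝ} (hs : 0 < s) : ∃ t : ℝ, 1 / 2 ≤ t ∧ t < 1 ∧ ∀ n : ℕ, 1 ≤ n →
    ∀ K : Set (Fin n → ℝ), Body K ∧ NearEllipsoid s K →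
      volume.real (K - K) ≤ (4 * t) ^ n * volume.real K := by
  obtain ⟨t, ht, ht1, h⟩ := regE hs
  refine ⟨t, ht, ht1, fun n hn K hR => ?_⟩
  obtain ⟨A, hA⟩ := ne_body hs hR.2
  exact h n hn _ A K hR.1.1 hR.1.2.1 hR.1.2.2 hA

/-- **The Rogers-Shephard and the non-symmetric `L^p`-Mahler inequality for bodies at bounded
distance from ellipsoids.** -/
theorem result :
    -- 1. the volume of the difference body, explicit form
    (∀ (s : ℝ) (m N : ℕ), 0 < s → 0 < m → 0 < N → 8 * s ^ 2 ≤ m →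
      ∀ (n : ℕ) (K : Set (Fin n → ℝ)), Body K → NearEllipsoid s K →
        volume.real (K - K) ^ m ≤
          2 * N * (4 ^ m * ((1 + s / N) / (1 + m / (2 ^ m * (4 * s))))) ^ n *
            volume.real K ^ m) ∧
    -- 2. the inequality of Q1 for all `p ≥ p₀(s)` in all dimensions
    (∀ s : ℝ, 0 < s → ∃ p₀ : ℝ, 0 < p₀ ∧
      ∀ p : ℝ, p₀ ≤ p → ∀ n : ℕ, 1 ≤ n → ∀ K : Set (Fin n → ℝ), Body K →
        (NearEllipsoid s K ∨ (Body (polar K) ∧ NearEllipsoid s (polar K))) →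
          simplexInf n p ≤ mahlerVolume p K ∧
          (¬ CentredSimplex K → simplexInf n p < mahlerVolume p K)) ∧
    -- 3. the exponential gain over the simplices (which have `κ = 4`, `m = e`)
    (∀ s : ℝ, 0 < s → ∃ κ m : ℝ, κ < 4 ∧
      Real.exp 1 < m ∧ ∀ n : ℕ, 1 ≤ n → ∀ K : Set (Fin n → ℝ), Body K →
        (NearEllipsoid s K → volume.real (K - K) ≤ κ ^ n * volume.real K) ∧
        (NearEllipsoid s K ∨ (Body (polar K) ∧ NearEllipsoid s (polar K)) →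
          ENNReal.ofReal (m ^ n) ≤ mahlerInf K ∧
          ∀ p : ℝ, 0 < p → ENNReal.ofReal (bound p m ^ n) ≤ mahlerVolume p K)) := by
  refine ⟨fun s m N hs hm hN h8 n K hB hE => ?_, fun s hs => ?_, fun s hs => ?_⟩
  · obtain ⟨A, hA⟩ := ne_body hs hE
    exact expl hs hm hN h8 hB.1 hB.2.1 (vol_ne hB) hA
  · obtain ⟨t, ht, ht1, hθ⟩ := exists_t hs
    obtain ⟨p₀, h0, h⟩ := Pool.Agent.Y505.MA.all_dim ht ht1
    refine ⟨p₀, h0, fun p hp n hn K hK hR => h p hp n hn K hK.1 hK.2.1 hK.2.2 ?_⟩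
    exact hR.imp (fun h1 => Or.inl (hθ n hn K ⟨hK, h1⟩)) (fun h1 => Or.inl (hθ n hn _ h1))
  · obtain ⟨t, ht, ht1, hθ⟩ := exists_t hs
    refine ⟨4 * t, Pool.Agent.Y505.MA.gg t, by linarith,
      Pool.Agent.Y505.MA.gg_gt (by linarith) ht1,
      fun n hn K hK => ⟨fun h1 => hθ n hn K ⟨hK, h1⟩, fun hR => ?_⟩⟩
    have hR' : Pool.Agent.Y505.MA.Reg t K ∨ Pool.Agent.Y505.MA.Reg t (H801NS.pol K) :=
      hR.imp (fun h1 => Or.inl (hθ n hn K ⟨hK, h1⟩)) (fun h1 => Or.inl (hθ n hn _ h1))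
    exact ⟨Pool.Agent.Y505.MA.mah_ge hK.1 hK.2.1 hK.2.2 ht ht1.le hR', fun p hp =>
      Pool.Agent.Y505.MA.mahp_ge hK.1 hK.2.1 hK.2.2 ht ht1.le hR' hp⟩

end Pool.Agent.Results.MP_5f4cdd_gt.NearEllipsoids

end
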