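import Pool.Agent.U327.PS.Gain

/-!
# Linear stability with one constant for all exponents `p ∈ (0, ∞]`, on a class of convex bodies

Let `dev K = 1 - |K|/|T| ∈ [0,1)`, `T` the smallest simplex containing `K`, and let `𝒢_n` be the
smallest class of convex bodies of `ℝⁿ`, `n = 1, 2, …`, which contains the free sums of planar
convex bodies and simplices (so `𝒢_2` consists of all planar convex bodies), the tree-like
polytopes (so all polytopes with at most `n + 2` vertices) and the products of its members with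
boxes, and which is closed under affine bijections, limits from outside, and the passage from
`K_{-a}` and `K_b` to `K` in a movement of the chords of `K` parallel to some direction.

For every `n ≥ 2` there is `c > 0` such that for all `K ∈ 𝒢_n`, in all positions,

  `M_p(K) ≥ (1 + c dev K) inf_x M_p(Δ_n - x)` for all `p ∈ (0, ∞]`, and
  `(1 + c dev K) L_K^n ≤ L_Δ^n` (the limit `p → 0`),

with equality in Q1 only for the simplices with centroid at the origin, for each `p`.  In
particular, in the plane all exponents are good and have linear stability with one constant.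

Near simplices this is the local theorem of the starting result `SmallExponents`, for large `p` it
is `MahlerStability`.  For the remaining `p` and `K` the gain is shown to be inherited: let `δ` be
the size of the neighbourhood in the local theorem; the property that `dev K ≤ δ` or
`M_p(K - z) ≥ (1 + κ) inf_x M_p(Δ_n - x)` for all `z` passes from `K_{-a}` and `K_b` to `K`, since
the deviation is continuous along the movement, so that one may stop at deviation `δ`, and since
`1/M_p` is convex along movements; and it passes to limits from outside.  The class is generated by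
simplices in this way, and by products with boxes, which have a gain of their own.
-/

set_option autoImplicit false

noncomputable section

open MeasureTheory Module Set
open scoped ENNReal

namespace Pool.Agent.Results.MP_5f4cdd_gt.UniformStability

/-- convex bodies in `ℝⁿ` (in any position) -/
def Body {n : ℕ} (K : Set (Fin n → ℝ)) : Prop := Convex ℝ K ∧ IsCompact K ∧ (interior K).Nonempty

/-- The `L^p`-Mahler volume `M_p(K) = vol(K) ∫ exp(-h_{p,K}(y)) dy` for `0 < p < ∞`, where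
`exp(-h_{p,K}(y)) = ((1/vol K) ∫_K exp(p⟨x,y⟩) dx)^(-1/p)`. -/
def mahlerVolume {n : ℕ} (p : ℝ) (K : Set (Fin n → ℝ)) : ℝ≥0∞ :=
  volume K * ∫⁻ y : Fin n → ℝ, ENNReal.ofReal
    (((∫ x in K, Real.exp (p * ∑ i, x i * y i)) / (volume K).toReal) ^ (-(1 / p)))

/-- The classical Mahler volume `M_∞(K) = vol(K) ∫ exp(-h_K(y)) dy` (the case `p = ∞`), where
`h_K(y) = sup_{x ∈ K} ⟨x, y⟩`. -/
def mahlerInf {n : ℕ} (K : Set (Fin n → ℝ)) : ℝ≥0∞ :=
  volume K * ∫⁻ y : Fin n → ℝ, ENNReal.ofReal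
    (Real.exp (-(sSup ((fun x : Fin n → ℝ => ∑ i, x i * y i) '' K))))

/-- the translate `K - z` -/
def shift {n : ℕ} (K : Set (Fin n → ℝ)) (z : Fin n → ℝ) : Set (Fin n → ℝ) := (fun x => x - z) '' K

/-- the standard simplex `Δ_n` -/
def simplex (n : ℕ) : Set (Fin n → ℝ) := {z | (∀ i, 0 ≤ z i) ∧ ∑ i, z i ≤ 1}

/-- the infimum of `M_p(Δ_n - x)` over `x ∈ Δ_n` -/
def simplexInf (n : ℕ) (p : ℝ) : ℝ≥0∞ := ⨅ x ∈ simplex n, mahlerVolume p (shift (simplex n) x)

/-- the infimum of `M_∞(Δ_n - x)` over `x ∈ Δ_n` -/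
def simplexInfTop (n : ℕ) : ℝ≥0∞ := ⨅ x ∈ simplex n, mahlerInf (shift (simplex n) x)

/-- the centroid -/
def centroid {n : ℕ} (K : Set (Fin n → ℝ)) : Fin n → ℝ :=
  fun i => (∫ x in K, x i) / (volume K).toReal

/-- the covariance matrix of the uniform distribution on `K` -/
def covariance {n : ℕ} (K : Set (Fin n → ℝ)) : Matrix (Fin n) (Fin n) ℝ :=
  Matrix.of fun i j =>
    (∫ x in K, (x i - centroid K i) * (x j - centroid K j)) / (volume K).toReal

/-- the isotropic constant `L_K = (det Cov(K))^(1/(2n)) / vol(K)^(1/n)` -/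
def isotropicConstant {n : ℕ} (K : Set (Fin n → ℝ)) : ℝ :=
  (Real.sqrt (covariance K).det / (volume K).toReal) ^ (1 / (n : ℝ))

/-- `K` is a simplex with centroid at the origin -/
def CentredSimplex {n : ℕ} (K : Set (Fin n → ℝ)) : Prop :=
  ∃ v : Fin (n + 1) → (Fin n → ℝ), AffineIndependent ℝ v ∧ ∑ i, v i = 0 ∧
    K = convexHull ℝ (Set.range v)

/-- the smallest volume of a simplex (hull of at most `n + 1` points) containing `K` -/
def simplexHullVolume {n : ℕ} (K : Set (Fin n → ℝ)) : ℝ :=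
  sInf {v | ∃ Q : Finset (Fin n → ℝ), Q.card ≤ n + 1 ∧ K ⊆ convexHull ℝ (Q : Set (Fin n → ℝ)) ∧
    v = (volume (convexHull ℝ (Q : Set (Fin n → ℝ)))).toReal}

/-- the deviation of `K` from simplices, `1 - |K|/|T|` for the smallest simplex `T ⊇ K` -/
def deviation {n : ℕ} (K : Set (Fin n → ℝ)) : ℝ := 1 - (volume K).toReal / simplexHullVolume K

/-- the set `K_t = {x + t β(x) θ : x ∈ K}` -/
def move {n : ℕ} (θ : Fin n → ℝ) (β : (Fin n → ℝ) → ℝ) (t : ℝ) (K : Set (Fin n → ℝ)) :
    Set (Fin n → ℝ) := (fun x => x + (t * β x) • θ) '' K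

/-- the velocities of the chords parallel to `θ`: continuous, and constant on the lines parallel
to `θ` -/
def IsVelocity {n : ℕ} (θ : Fin n → ℝ) (β : (Fin n → ℝ) → ℝ) : Prop :=
  Continuous β ∧ ∀ (x : Fin n → ℝ) (s : ℝ), β (x + s • θ) = β x

/-- the product `K × [a_1,b_1] × … × [a_j,b_j] ⊆ ℝ^(n+j)` -/
def boxProduct {n j : ℕ} (K : Set (Fin n → ℝ)) (a b : Fin j → ℝ) : Set (Fin (n + j) → ℝ) :=
  {w | (fun i : Fin n => w (Fin.castAdd j i)) ∈ K ∧ ∀ i : Fin j, w (Fin.natAdd n i) ∈ Set.Icc (a i) (b i)}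

/-- free sums of planar convex bodies and simplices: the hull of the union of convex bodies `A i`
which share the point `q`, lie in `q + V i` with `∑ dim V i ≤ n`, and are simplices if
`dim V i ≠ 2` -/
def IsFreeSum {n : ℕ} (K : Set (Fin n → ℝ)) : Prop :=
  ∃ (m : ℕ) (V : Fin m → Submodule ℝ (Fin n → ℝ)) (A : Fin m → Set (Fin n → ℝ)) (q : Fin n → ℝ),
    ∑ i, finrank ℝ (V i) ≤ n ∧
    (∀ i, IsCompact (A i) ∧ Convex ℝ (A i) ∧ q ∈ A i ∧ ∀ x ∈ A i, x - q ∈ V i) ∧
    (∀ i, finrank ℝ (V i) = 2 ∨ ∃ S : Finset (Fin n → ℝ),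
      S.card ≤ finrank ℝ (V i) + 1 ∧ A i = convexHull ℝ (S : Set (Fin n → ℝ))) ∧
    K = convexHull ℝ (⋃ i, A i) ∧ (interior K).Nonempty

/-- finite point sets built from single points by joins (cost one) and by glueing two sets whose
convex hulls meet (no cost); the natural number is the total cost -/
inductive TreeLike {n : ℕ} : Set (Fin n → ℝ) → ℕ → Prop
  | point (x : Fin n → ℝ) : TreeLike {x} 0
  | join {A B : Set (Fin n → ℝ)} {a b : ℕ} : TreeLike A a → TreeLike B b →
      TreeLike (A ∪ B) (a + b + 1)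
  | glue {A B : Set (Fin n → ℝ)} {a b : ℕ} : TreeLike A a → TreeLike B b →
      (convexHull ℝ A ∩ convexHull ℝ B).Nonempty → TreeLike (A ∪ B) (a + b)

/-- the class `𝒢_n`: the smallest class of convex bodies which contains the free sums of planar
convex bodies and simplices, the full-dimensional hulls of tree-like sets of cost at most `n`, and
the products of its members with boxes, and is closed under affine bijections, the passage from
`K_{-a}` and `K_b` to the convex body `K = K_0`, and limits from outside in volume -/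
inductive Generated : (n : ℕ) → Set (Fin n → ℝ) → Prop
  | freeSum {n : ℕ} {K : Set (Fin n → ℝ)} (hK : IsFreeSum K) : Generated n K
  | tree {n d : ℕ} {T : Set (Fin n → ℝ)} (hd : d ≤ n) (hT : TreeLike T d)
      (hi : (interior (convexHull ℝ T)).Nonempty) : Generated n (convexHull ℝ T)
  | box {n j : ℕ} {K : Set (Fin n → ℝ)} (hK : Generated n K) {a b : Fin j → ℝ}
      (hab : ∀ i, a i < b i) : Generated (n + j) (boxProduct K a b)
  | affine {n : ℕ} {K : Set (Fin n → ℝ)} (hK : Generated n K)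
      (T : (Fin n → ℝ) ≃ₗ[ℝ] (Fin n → ℝ)) (z : Fin n → ℝ) : Generated n (shift (T '' K) z)
  | between {n : ℕ} {K : Set (Fin n → ℝ)} (hK : Body K) {θ : Fin n → ℝ}
      {β : (Fin n → ℝ) → ℝ} (hβ : IsVelocity θ β) {a b : ℝ} (ha : 0 < a) (hb : 0 < b)
      (h₁ : Generated n (move θ β (-a) K)) (h₂ : Generated n (move θ β b K)) : Generated n K
  | limit {n : ℕ} {K : Set (Fin n → ℝ)} (hK : Body K) {L : ℕ → Set (Fin n → ℝ)}
      (hL : ∀ k, Generated n (L k)) (hKL : ∀ k, K ⊆ L k)
      (hv : ∀ k : ℕ, volume (L k) ≤ ENNReal.ofReal (1 + 1 / ((k:ℝ) + 1)) * volume K) :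
      Generated n K

/-- good exponents: Q1 holds for `p`, with equality exactly for the simplices with centroid at the
origin -/
def Good (n : ℕ) (p : ℝ) : Prop :=
  ∀ K : Set (Fin n → ℝ), Body K → simplexInf n p ≤ mahlerVolume p K ∧
    (mahlerVolume p K = simplexInf n p ↔ CentredSimplex K)

/-- linear stability with the constant `c` -/
def Stable (n : ℕ) (c p : ℝ) : Prop :=
  ∀ K : Set (Fin n → ℝ), Body K →
    ENNReal.ofReal (1 + c * deviation K) * simplexInf n p ≤ mahlerVolume p K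

open Pool.Agent.H131R5.LM Pool.Agent.H131R5.LC
open Pool.Agent.Y511.LM (mv_int sub_compact sub_int)
open Pool.Agent.U327.PS (Cl GG GG_img cl_gain consts slicing)

lemma body_iff {n : ℕ} {K : Set (Fin n → ℝ)} (h : Body K) : Pool.Agent.N563.SE.Body K :=
  ⟨h.2.1, h.1, h.2.2⟩

lemma iff_body {n : ℕ} {K : Set (Fin n → ℝ)} (h : Pool.Agent.N563.SE.Body K) : Body K :=
  ⟨h.conv, h.cpt, h.int⟩

lemma infp_eq {n : ℕ} {p : ℝ} (hp : 0 < p) : simplexInf n p = Mp p (Sn n) := by
  apply le_antisymm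
  · have h2 := iInf₂_le (f := fun (x : Fin n → ℝ) (_ : x ∈ simplex n) =>
      mahlerVolume p (shift (simplex n) x)) _ (center_mem (n := n))
    rw [← image_Dn]
    exact h2
  · refine le_iInf₂ fun x _ => ?_
    have h := Pool.Agent.TH649.LOC.Mp_shift_le (n := n) hp (x - fun _ => 1 / ((n:ℝ) + 1))
    have e : (fun y : Fin n → ℝ => y - (x - fun _ => 1 / ((n:ℝ) + 1))) '' Sn n =
        shift (simplex n) x := by
      rw [← image_Dn, Set.image_image]
      refine Set.image_congr fun z _ => ?_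
      abel
    rw [e] at h
    exact h

lemma II_eq {n : ℕ} {p : ℝ} (hp : 0 < p) : II n p = Mp p (Sn n) := infp_eq hp

lemma infi_eq (n : ℕ) : simplexInfTop n = Pool.Agent.U327.MI.Si n := Pool.Agent.U327.MI.infi_eq

lemma LK_simplex (n : ℕ) : isotropicConstant (simplex n) = Pool.Agent.N563.SE.LK (Sn n) := by
  have h0 : Pool.Agent.N563.SE.Body (simplex n) := ⟨Dn_comp, Dn_conv, Dn_int⟩
  have h := Pool.Agent.N563.SE.LK_sh h0 (fun _ => 1 / ((n:ℝ) + 1))
  rw [← image_Dn]
  exact h.symm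

lemma shift_body {n : ℕ} {K : Set (Fin n → ℝ)} (hK : Body K) (z : Fin n → ℝ) :
    Body (shift K z) := iff_body (Pool.Agent.N563.SE.body_sh (body_iff hK) z)

lemma box_convex {n j : ℕ} {K : Set (Fin n → ℝ)} (hK : Convex ℝ K) (a b : Fin j → ℝ) :
    Convex ℝ (boxProduct K a b) := by
  intro x hx y hy s t hs ht hst
  refine ⟨hK hx.1 hy.1 hs ht hst, fun i => ?_⟩
  exact convex_Icc (𝕜 := ℝ) (a i) (b i) (hx.2 i) (hy.2 i) hs ht hst

/-- what is proved by induction on the class -/
def Mot (n : ℕ) (K : Set (Fin n → ℝ)) : Prop :=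
  Body K ∧ (∀ p : ℝ, 0 < p → LB p (II n p) K) ∧
    ∀ δ κ p : ℝ, 0 < p → Cl (GG (n := n) δ κ p) →
      (∀ n' j : ℕ, 1 ≤ j → n' + j = n → 1 + κ ≤ 1 / Pool.Agent.TH649.LP.QQ n' j) → GG δ κ p K

lemma mot_freeSum {n : ℕ} {K : Set (Fin n → ℝ)} (hK : IsFreeSum K) : Mot n K := by
  obtain ⟨m, V, A, q, hV, hA, ht, rfl, hi⟩ := hK
  classical
  have hcv : ∀ X : Set (Fin n → ℝ), Convex ℝ X → Convex ℝ ((fun x => x - q) '' X) := fun X hX =>
    Pool.Agent.U327.PS.conv_sub hX q
  have hbody : convexHull ℝ (⋃ i, (fun x => x - q) '' A i) =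
      (fun x => x - q) '' convexHull ℝ (⋃ i, A i) := by
    rw [hull_sub, Set.image_iUnion]
  have hint : (interior (convexHull ℝ (⋃ i, (fun x => x - q) '' A i))).Nonempty := by
    rw [hbody]
    have h2 : (fun x => x - q) '' interior (convexHull ℝ (⋃ i, A i)) =
        interior ((fun x => x - q) '' convexHull ℝ (⋃ i, A i)) :=
      (Homeomorph.subRight q).image_interior _
    rw [← h2]
    exact hi.image _
  have c1 : ∀ i, IsCompact ((fun x => x - q) '' A i) := fun i => (hA i).1.image (by fun_prop)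
  have c2 : ∀ i, (0 : Fin n → ℝ) ∈ (fun x => x - q) '' A i := fun i =>
    ⟨q, (hA i).2.2.1, sub_self q⟩
  have c3 : ∀ i, (fun x => x - q) '' A i ⊆ V i := fun i => by
    rintro _ ⟨x, hx, rfl⟩
    exact (hA i).2.2.2 x hx
  have c4 : ∀ i, finrank ℝ (V i) = 2 ∨ ∃ S : Finset (Fin n → ℝ),
      S.card ≤ finrank ℝ (V i) + 1 ∧ (fun x => x - q) '' A i =
        convexHull ℝ (S : Set (Fin n → ℝ)) := fun i => by
    rcases ht i with h | ⟨S, hS, hAS⟩
    · exact Or.inl h
    · refine Or.inr ⟨S.image (fun x => x - q), Finset.card_image_le.trans hS, ?_⟩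
      rw [hAS, hull_sub, Finset.coe_image]
  refine ⟨⟨convex_convexHull ℝ _, Pool.Agent.W679.A.compact_UN fun i => (hA i).1, hi⟩,
    fun p hp => ?_, fun δ κ p hp hG _ => ?_⟩
  · have h := Pool.Agent.W679.A.full hp V hV (fun i => (fun x => x - q) '' A i) c1
      (fun i => hcv _ (hA i).2.1) c2 c3 c4 hint
    rw [hbody] at h
    exact LB_sub q h
  · have h := Pool.Agent.U327.PS.full hG V hV (fun i => (fun x => x - q) '' A i) c1
      (fun i => hcv _ (hA i).2.1) c2 c3 c4 hint
    rw [hbody] at h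
    exact hG.sub q h

lemma mot_tree {n d : ℕ} {T : Set (Fin n → ℝ)} (hd : d ≤ n) (hT : TreeLike T d)
    (hi : (interior (convexHull ℝ T)).Nonempty) : Mot n (convexHull ℝ T) := by
  have key : ∀ (A : Set (Fin n → ℝ)) (a : ℕ), TreeLike A a →
      ∃ g : ℕ, Pool.Agent.Y589.TLA.TL A a g := by
    intro A a h
    induction h with
    | point x => exact ⟨0, .point x⟩
    | join _ _ h1 h2 =>
      obtain ⟨g, h1⟩ := h1
      obtain ⟨k, h2⟩ := h2
      exact ⟨g + k, .join h1 h2⟩
    | glue _ _ hz h1 h2 =>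
      obtain ⟨g, h1⟩ := h1
      obtain ⟨k, h2⟩ := h2
      exact ⟨g + k + 1, .glue h1 h2 hz⟩
  obtain ⟨g, h⟩ := key T d hT
  exact ⟨⟨convex_convexHull ℝ _, h.fin.isCompact_convexHull ℝ, hi⟩,
    fun p hp => Pool.Agent.Y589.TLA.main hp g T d hd h hi,
    fun δ κ p hp hG _ => Pool.Agent.U327.PS.tree hG g T d hd h hi⟩

lemma mot_box {n j : ℕ} {K : Set (Fin n → ℝ)} (ih : Mot n K) {a b : Fin j → ℝ}
    (hab : ∀ i, a i < b i) : Mot (n + j) (boxProduct K a b) := by
  obtain ⟨hb, hl, hg⟩ := ih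
  rcases Nat.eq_zero_or_pos j with rfl | hj
  · have e : boxProduct K a b = K := Pool.Agent.TH649.LP.boxS_zero K a b
    rw [e]
    exact ⟨hb, hl, hg⟩
  have key : ∀ p : ℝ, 0 < p → IsCompact (boxProduct K a b) ∧ (interior (boxProduct K a b)).Nonempty ∧
      LB p (ENNReal.ofReal (1 / Pool.Agent.TH649.LP.QQ n j) * II (n + j) p)
        (boxProduct K a b) := by
    intro p hp
    have h := Pool.Agent.TH649.LP.box_all hp hb.2.1 hb.2.2 (c := 1)
      (by simpa using hl p hp) j a b hab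
    rw [one_mul] at h
    exact h
  have hQ := Pool.Agent.TH649.LP.QQ_pos n j
  have hQ1 : Pool.Agent.TH649.LP.QQ n j ≤ 1 :=
    Finset.prod_le_one (fun _ _ => (Pool.Agent.TH649.LP.qN_pos (by omega)).le)
      fun _ _ => Pool.Agent.TH649.LP.qN_le (by omega)
  refine ⟨⟨box_convex hb.1 a b, (key 1 one_pos).1, (key 1 one_pos).2.1⟩, fun p hp z => ?_,
    fun δ κ p hp hG hbx _ => Or.inr fun z => ?_⟩
  · refine le_trans ?_ ((key p hp).2.2 z)
    calc II (n + j) p = ENNReal.ofReal 1 * II (n + j) p := by rw [ENNReal.ofReal_one, one_mul]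
      _ ≤ _ := by
        gcongr
        rw [le_div_iff₀ hQ, one_mul]
        exact hQ1
  · refine le_trans ?_ ((key p hp).2.2 z)
    rw [← II_eq hp]
    gcongr
    exact hbx n j hj rfl

lemma mot_affine {n : ℕ} {K : Set (Fin n → ℝ)} (ih : Mot n K)
    (T : (Fin n → ℝ) ≃ₗ[ℝ] (Fin n → ℝ)) (z : Fin n → ℝ) : Mot n (shift (T '' K) z) := by
  obtain ⟨hb, hl, hg⟩ := ih
  have bT : Body (T '' K) := iff_body (Pool.Agent.N563.UL.body_img (body_iff hb) T)
  exact ⟨shift_body bT z, fun p hp => LB_sub' z (LB_image hp T hb.2.1 hb.2.2 (hl p hp)),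
    fun δ κ p hp hG hbx => hG.sub' z (GG_img hp T (hg δ κ p hp hG hbx))⟩

lemma mot_between {n : ℕ} {K : Set (Fin n → ℝ)} (hK : Body K) {θ : Fin n → ℝ}
    {β : (Fin n → ℝ) → ℝ} (hβ : IsVelocity θ β) {a b : ℝ} (ha : 0 < a) (hb : 0 < b)
    (h₁ : Mot n (move θ β (-a) K)) (h₂ : Mot n (move θ β b K)) : Mot n K :=
  ⟨hK, fun p hp => LB_core hp hK.1 hK.2.1 hK.2.2 hβ.1 hβ.2 ha hb (h₂.2.1 p hp) (h₁.2.1 p hp),
    fun δ κ p hp hG hbx => hG.mov hK.1 hK.2.1 hK.2.2 hβ.1 hβ.2 ha hb
      ⟨h₂.1.1, h₂.2.2 δ κ p hp hG hbx⟩ ⟨h₁.1.1, h₁.2.2 δ κ p hp hG hbx⟩⟩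

lemma mot_limit {n : ℕ} {K : Set (Fin n → ℝ)} (hK : Body K) {L : ℕ → Set (Fin n → ℝ)}
    (hL : ∀ k, Mot n (L k)) (hKL : ∀ k, K ⊆ L k)
    (hv : ∀ k : ℕ, volume (L k) ≤ ENNReal.ofReal (1 + 1 / ((k:ℝ) + 1)) * volume K) :
    Mot n K := by
  have hk : ∀ ε : ℝ, 0 < ε → ∃ k : ℕ, (volume (L k)).toReal ≤ (1 + ε) * (volume K).toReal := by
    intro ε hε
    obtain ⟨k, hk⟩ := exists_nat_one_div_lt hε
    refine ⟨k, ?_⟩
    have h1 := ENNReal.toReal_mono (ENNReal.mul_ne_top ENNReal.ofReal_ne_top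
      hK.2.1.measure_lt_top.ne) (hv k)
    rw [ENNReal.toReal_mul, ENNReal.toReal_ofReal (by positivity)] at h1
    refine h1.trans ?_
    have h2 : 0 ≤ (volume K).toReal := ENNReal.toReal_nonneg
    nlinarith
  refine ⟨hK, fun p hp => ?_, fun δ κ p hp hG hbx => ?_⟩
  · refine Pool.Agent.W679.A.LB_approx hp hK.2.1 hK.2.2 fun ε hε => ?_
    obtain ⟨k, hk⟩ := hk ε hε
    exact ⟨L k, (hL k).1.2.1, hKL k, hk, (hL k).2.1 p hp⟩
  · refine hG.out hK.1 hK.2.1 hK.2.2 fun ε hε => ?_
    obtain ⟨k, hk⟩ := hk ε hε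
    exact ⟨L k, (hL k).1.2.1, (hL k).1.1, hKL k, hk, (hL k).2.2 δ κ p hp hG hbx⟩

lemma mot {n : ℕ} {K : Set (Fin n → ℝ)} (h : Generated n K) : Mot n K := by
  induction h with
  | freeSum hK => exact mot_freeSum hK
  | tree hd hT hi => exact mot_tree hd hT hi
  | box _ hab ih => exact mot_box ih hab
  | affine _ T z ih => exact mot_affine ih T z
  | between hK hβ ha hb _ _ ih₁ ih₂ => exact mot_between hK hβ ha hb ih₁ ih₂
  | limit hK _ hKL hv ih => exact mot_limit hK ih hKL hv

/-- the estimate for all `p ∈ (0,∞)` -/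
theorem stab (n : ℕ) (hn : 2 ≤ n) : ∃ c : ℝ, 0 < c ∧ ∀ K : Set (Fin n → ℝ), Generated n K →
    ∀ z : Fin n → ℝ, ∀ p : ℝ, 0 < p →
      ENNReal.ofReal (1 + c * deviation K) * simplexInf n p ≤ mahlerVolume p (shift K z) := by
  obtain ⟨m, rfl⟩ : ∃ m, n = m + 2 := ⟨n - 2, by omega⟩
  obtain ⟨δ, κ, c, P, hδ, hκ, hc, hP, hlarge, hbox, hsmall⟩ := consts m
  refine ⟨c, hc, fun K hK z p hp => ?_⟩
  obtain ⟨hb, -, hg⟩ := mot hK
  rw [infp_eq hp]
  rcases le_total p P with h | h
  · obtain ⟨hG, h1⟩ := hsmall p hp h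
    exact h1 K (body_iff hb) (hg δ κ p hp hG hbox) z
  · have h1 := hlarge p h _ (Pool.Agent.N563.SE.body_sh (body_iff hb) z)
    rw [Pool.Agent.N563.UL.dev_sh (body_iff hb) z] at h1
    exact h1

lemma hull_of {n : ℕ} (hn : 1 ≤ n) {K : Set (Fin n → ℝ)} (hK : Generated n K) {p : ℝ}
    (hp : 0 < p) {z : Fin n → ℝ} (he : mahlerVolume p (shift K z) = simplexInf n p) :
    CentredSimplex (shift K z) := by
  have hb := (mot hK).1
  have hbz := body_iff (shift_body hb z)
  rw [infp_eq hp] at he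
  refine Pool.Agent.N563.UL.hull_centred hp hbz ?_ he
  rcases (show n = 1 ∨ 2 ≤ n by omega) with rfl | h2
  · exact Pool.Agent.U327.MI.hull_one hbz
  · obtain ⟨c, hc, hst⟩ := stab n h2
    have h1 := hst K hK z p hp
    rw [infp_eq hp] at h1
    have hd : Pool.Agent.N563.UL.dev (shift K z) = deviation K :=
      Pool.Agent.N563.UL.dev_sh (body_iff hb) z
    rw [← hd] at h1
    exact (Pool.Agent.N563.UL.stab_eq hc hp hbz h1).2 he

lemma plane {K : Set (Fin 2 → ℝ)} (hK : Body K) : Generated 2 K := by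
  obtain ⟨q, hq⟩ := hK.2.2
  refine .freeSum ⟨1, fun _ => ⊤, fun _ => K, q, ?_, ?_, ?_, ?_, hK.2.2⟩
  · simp
  · exact fun _ => ⟨hK.2.1, hK.1, interior_subset hq, fun _ _ => Submodule.mem_top⟩
  · intro _
    left
    simp
  · rw [Set.iUnion_const, hK.1.convexHull_eq]

lemma tree_finset {n : ℕ} (S : Finset (Fin n → ℝ)) : ∀ k : ℕ, S.card = k + 1 →
    TreeLike (S : Set (Fin n → ℝ)) k := by
  classical
  intro k
  induction k generalizing S with
  | zero =>
    intro h
    obtain ⟨x, rfl⟩ := Finset.card_eq_one.1 h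
    rw [Finset.coe_singleton]
    exact .point x
  | succ k ih =>
    intro h
    obtain ⟨x, S', hx, rfl, hS'⟩ := Finset.card_eq_succ.1 h
    rw [Finset.coe_insert, Set.insert_eq]
    have h1 := TreeLike.join (.point x) (ih S' hS')
    have e : 0 + k + 1 = k + 1 := by omega
    rw [e] at h1
    exact h1

lemma few {n : ℕ} (S : Finset (Fin n → ℝ)) (hS : S.card ≤ n + 2)
    (hi : (interior (convexHull ℝ (S : Set (Fin n → ℝ)))).Nonempty) :
    Generated n (convexHull ℝ (S : Set (Fin n → ℝ))) := by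
  classical
  have hne : S.Nonempty := by
    by_contra h
    rw [Finset.not_nonempty_iff_eq_empty] at h
    rw [h] at hi
    simp at hi
  have hpos := Finset.card_pos.2 hne
  by_cases h1 : S.card ≤ n + 1
  · exact .tree (d := S.card - 1) (by omega) (tree_finset S _ (by omega)) hi
  have hcard : S.card = n + 2 := by omega
  -- Radon's theorem
  have hdep : ¬ AffineIndependent ℝ ((↑) : S → (Fin n → ℝ)) := by
    intro h
    have h2 := h.card_le_finrank_succ
    have h3 := Submodule.finrank_le (vectorSpan ℝ (Set.range ((↑) : S → (Fin n → ℝ))))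
    rw [Module.finrank_fin_fun] at h3
    rw [Fintype.card_coe] at h2
    omega
  obtain ⟨I, z, hz1, hz2⟩ := Convex.radon_partition hdep
  set A : Finset (Fin n → ℝ) := S.filter fun x => ∃ h : x ∈ S, (⟨x, h⟩ : S) ∈ I with hA
  set B : Finset (Fin n → ℝ) := S.filter fun x => ¬ ∃ h : x ∈ S, (⟨x, h⟩ : S) ∈ I with hB
  have eA : ((↑) : S → (Fin n → ℝ)) '' I = (A : Set (Fin n → ℝ)) := by
    ext x
    simp only [Set.mem_image, Subtype.exists, exists_and_right, exists_eq_right, hA,
      Finset.coe_filter, Set.mem_ofPred_eq]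
    constructor
    · rintro ⟨h, h'⟩
      exact ⟨h, h, h'⟩
    · rintro ⟨_, h, h'⟩
      exact ⟨h, h'⟩
  have eB : ((↑) : S → (Fin n → ℝ)) '' Iᶜ = (B : Set (Fin n → ℝ)) := by
    ext x
    simp only [Set.mem_image, Subtype.exists, exists_and_right, exists_eq_right, hB,
      Finset.coe_filter, Set.mem_ofPred_eq, Set.mem_compl_iff]
    constructor
    · rintro ⟨h, h'⟩
      exact ⟨h, fun ⟨_, h''⟩ => h' h''⟩
    · rintro ⟨h, h'⟩
      exact ⟨h, fun h'' => h' ⟨h, h''⟩⟩
  rw [eA] at hz1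
  rw [eB] at hz2
  have hsum : A.card + B.card = S.card := Finset.card_filter_add_card_filter_not _
  have hAne : 0 < A.card := by
    rw [Finset.card_pos]
    by_contra h
    rw [Finset.not_nonempty_iff_eq_empty] at h
    rw [h] at hz1
    simp at hz1
  have hBne : 0 < B.card := by
    rw [Finset.card_pos]
    by_contra h
    rw [Finset.not_nonempty_iff_eq_empty] at h
    rw [h] at hz2
    simp at hz2
  have hU : (S : Set (Fin n → ℝ)) = (A : Set (Fin n → ℝ)) ∪ (B : Set (Fin n → ℝ)) := by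
    rw [← Finset.coe_union, hA, hB, Finset.filter_union_filter_not_eq]
  have ht := TreeLike.glue (tree_finset A (A.card - 1) (by omega))
    (tree_finset B (B.card - 1) (by omega)) ⟨z, hz1, hz2⟩
  rw [← hU] at ht
  exact .tree (by omega) ht hi

/-- **Linear stability with one constant for all exponents, and the cases of equality.**

* the class `𝒢` consists of convex bodies, and contains all planar convex bodies and all
  polytopes with at most `n + 2` vertices;
* for every `n ≥ 2` there is `c > 0` such that for all `K ∈ 𝒢_n`, in all positions `K - z`: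
  `(1 + c dev K) inf_x M_p(Δ_n - x) ≤ M_p(K - z)` for all `p ∈ (0,∞)`, the same for `p = ∞`, and
  `(1 + c dev K) L_K^n ≤ L_Δ^n`;
* for `n ≥ 1`, `K ∈ 𝒢_n` and `0 < p < ∞`, equality in Q1 holds exactly for the simplices with
  centroid at the origin;
* in the plane all exponents `p ∈ (0,∞)` are good, and have linear stability with one constant. -/
theorem result :
    (∀ (n : ℕ) (K : Set (Fin n → ℝ)), Generated n K → Body K) ∧
    (∀ K : Set (Fin 2 → ℝ), Body K → Generated 2 K) ∧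
    (∀ (n : ℕ) (S : Finset (Fin n → ℝ)), S.card ≤ n + 2 →
      (interior (convexHull ℝ (S : Set (Fin n → ℝ)))).Nonempty →
        Generated n (convexHull ℝ (S : Set (Fin n → ℝ)))) ∧
    (∀ n : ℕ, 2 ≤ n → ∃ c : ℝ, 0 < c ∧ ∀ K : Set (Fin n → ℝ), Generated n K →
      (∀ z : Fin n → ℝ, (∀ p : ℝ, 0 < p →
          ENNReal.ofReal (1 + c * deviation K) * simplexInf n p ≤ mahlerVolume p (shift K z)) ∧
        ENNReal.ofReal (1 + c * deviation K) * simplexInfTop n ≤ mahlerInf (shift K z)) ∧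
      (1 + c * deviation K) * isotropicConstant K ^ n ≤ isotropicConstant (simplex n) ^ n) ∧
    (∀ n : ℕ, 1 ≤ n → ∀ K : Set (Fin n → ℝ), Generated n K → ∀ p : ℝ, 0 < p →
      ∀ z : Fin n → ℝ, simplexInf n p ≤ mahlerVolume p (shift K z) ∧
        (mahlerVolume p (shift K z) = simplexInf n p ↔ CentredSimplex (shift K z))) ∧
    (∃ c : ℝ, 0 < c ∧ ∀ p : ℝ, 0 < p → Good 2 p ∧ Stable 2 c p) := by
  have hshift : ∀ {n : ℕ} (K : Set (Fin n → ℝ)), shift K 0 = K := fun K => by
    unfold shift; simp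
  have heq : ∀ n : ℕ, 1 ≤ n → ∀ K : Set (Fin n → ℝ), Generated n K → ∀ p : ℝ, 0 < p →
      ∀ z : Fin n → ℝ, simplexInf n p ≤ mahlerVolume p (shift K z) ∧
        (mahlerVolume p (shift K z) = simplexInf n p ↔ CentredSimplex (shift K z)) := by
    intro n hn K hK p hp z
    refine ⟨(mot hK).2.1 p hp z, fun he => hull_of hn hK hp he, fun h => ?_⟩
    rw [infp_eq hp]
    exact Pool.Agent.N563.UL.centred_eq hp h
  refine ⟨fun n K h => (mot h).1, fun K hK => plane hK, fun n S hS hi => few S hS hi, ?_, heq, ?_⟩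
  · intro n hn
    obtain ⟨c, hc, h⟩ := stab n hn
    refine ⟨c, hc, fun K hK => ⟨fun z => ⟨h K hK z, ?_⟩, ?_⟩⟩
    · have hb := (mot hK).1
      rw [infi_eq]
      refine Pool.Agent.U327.MI.le_mah' (p0 := 1) (body_iff (shift_body hb z)) fun p hp _ => ?_
      refine le_trans ?_ (h K hK z p hp)
      rw [infp_eq hp]
      gcongr
      exact (Pool.Agent.U327.MI.si_le (Pool.Agent.N563.UL.bodyS n)).trans
        (Pool.Agent.U327.MI.mah_le (Pool.Agent.N563.UL.bodyS n) hp)
    · have hb := (mot hK).1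
      rw [LK_simplex]
      refine slicing (by omega) hc (body_iff hb) fun p hp z => ?_
      have := h K hK z p hp
      rw [infp_eq hp] at this
      exact this
  · obtain ⟨c, hc, h⟩ := stab 2 le_rfl
    refine ⟨c, hc, fun p hp => ⟨fun K hK => ?_, fun K hK => ?_⟩⟩
    · have := heq 2 (by norm_num) K (plane hK) p hp 0
      rwa [hshift] at this
    · have := h K (plane hK) 0 p hp
      rwa [hshift] at this

end Pool.Agent.Results.MP_5f4cdd_gt.UniformStability

end
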