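import Pool.Agent.U330.NSC.Reg

/-!
# The non-symmetric `L^p`-Mahler inequality for uniformly convex bodies

For a convex body `K ⊂ ℝⁿ`, not necessarily symmetric, we say that the midpoint of `a, u ∈ K` is
`s`-deep if `(a + u)/2 + s (K - K) ⊂ K`, and that `K` is uniformly convex of power type `q` with
constant `c` if the midpoint of any `a, u ∈ K` is `c ‖a - u‖^q`-deep, `‖·‖` being the norm with unit
ball `K - K`.  Bodies of constant width are uniformly convex with `q = 2`, `c = 1/8`.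

* If every `a ∈ K` has `s`-deep midpoints with all `u ∈ K` outside a set of volume at most `ε |K|`,
  `ε < 1/2`, then `|K - K| ≤ (1 - 2ε)⁻¹ (4/(1+4s))ⁿ |K|`, which for large `n` is exponentially less than
  the bound `(2n choose n) |K|` of Rogers and Shephard.
* So for uniformly convex bodies, for bodies with few flat points, and for bodies whose polar is
  such a body, the inequality of Q1 holds for all `p ≥ p₀` in ALL dimensions, where `p₀` depends
  only on the constants of convexity, and `M_∞(K)` is larger than that of the simplices by an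
  exponential factor.

Proof of the first point.  Let `a, b ∈ K` and `y = (a - b)/2`.  For all `u ∈ K` outside a set of volume
`2 ε |K|` both midpoints are deep, so `(a + u)/2 + s d` and `(a + u)/2 + s d - y = (b + u)/2 + s d`
belong to `K` for all `d ∈ K - K`.  By the Brunn-Minkowski inequality
`|K ∩ (y + K)| ≥ (1 - 2ε) ((1 + 4s)/2)ⁿ |K|`.  Integration over `y ∈ (K - K)/2` gives the bound.
The second point uses the starting result `DimensionFreeThreshold` (bodies with `|K - K| ≤ κ^n |K|`,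
`κ < 4`).
-/

set_option autoImplicit false

noncomputable section

open MeasureTheory
open scoped ENNReal Pointwise

namespace Pool.Agent.Results.MP_5f4cdd_gt.UniformlyConvex

/-- convex bodies in `ℝⁿ` (in any position) -/
def Body {n : ℕ} (K : Set (Fin n → ℝ)) : Prop := Convex ℝ K ∧ IsCompact K ∧ (interior K).Nonempty

/-- The `L^p`-Mahler volume `M_p(K) = vol(K) ∫ exp(-h_{p,K}(y)) dy` for `0 < p < ∞`, where
`exp(-h_{p,K}(y)) = ((1/vol K) ∫_K exp(p⟨x,y⟩) dx)^(-1/p)`. -/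
def mahlerVolume {n : ℕ} (p : ℝ) (K : Set (Fin n → ℝ)) : ℝ≥0∞ :=
  volume K * ∫⁻ y : Fin n → ℝ, ENNReal.ofReal
    (((∫ x in K, Real.exp (p * ∑ i, x i * y i)) / (volume K).toReal) ^ (-(1 / p)))

/-- The classical Mahler volume `M_∞(K) = vol(K) ∫ exp(-h_K(y)) dy` (the case `p = ∞`), where
`h_K(y) = sup_{x ∈ K} ⟨x, y⟩`. -/
def mahlerInf {n : ℕ} (K : Set (Fin n → ℝ)) : ℝ≥0∞ :=
  volume K * ∫⁻ y : Fin n → ℝ, ENNReal.ofReal
    (Real.exp (-(sSup ((fun x : Fin n → ℝ => ∑ i, x i * y i) '' K))))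

/-- the standard simplex `Δ_n` -/
def simplex (n : ℕ) : Set (Fin n → ℝ) := {z | (∀ i, 0 ≤ z i) ∧ ∑ i, z i ≤ 1}

/-- the infimum of `M_p(Δ_n - x)` over `x ∈ Δ_n` -/
def simplexInf (n : ℕ) (p : ℝ) : ℝ≥0∞ :=
  ⨅ x ∈ simplex n, mahlerVolume p ((fun z : Fin n → ℝ => z - x) '' simplex n)

/-- `K` is a simplex with centroid at the origin: the convex hull of `n + 1` affinely independent
points whose sum is `0` -/
def CentredSimplex {n : ℕ} (K : Set (Fin n → ℝ)) : Prop :=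
  ∃ v : Fin (n + 1) → (Fin n → ℝ), AffineIndependent ℝ v ∧ ∑ i, v i = 0 ∧
    K = convexHull ℝ (Set.range v)

/-- the polar set -/
def polar {n : ℕ} (K : Set (Fin n → ℝ)) : Set (Fin n → ℝ) := {y | ∀ x ∈ K, ∑ i, x i * y i ≤ 1}

/-- the midpoint of `a` and `u` is `s`-deep: `(a + u)/2 + s (K - K) ⊂ K` -/
def DeepMidpoint {n : ℕ} (s : ℝ) (K : Set (Fin n → ℝ)) (a u : Fin n → ℝ) : Prop :=
  ∀ v ∈ K, ∀ w ∈ K, (1 / 2 : ℝ) • (a + u) + s • (v - w) ∈ K

/-- `K` is uniformly convex of power type `q` with constant `c`: the midpoint of `a, u ∈ K` is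
`c ‖a - u‖^q`-deep; `‖·‖` is the norm with unit ball `K - K` (its gauge) -/
def UnifConvex {n : ℕ} (q c : ℝ) (K : Set (Fin n → ℝ)) : Prop :=
  ∀ a ∈ K, ∀ u ∈ K, DeepMidpoint (c * gauge (K - K) (a - u) ^ q) K a u

/-- the set of the `u ∈ K` for which the condition of uniform convexity fails for some `a ∈ K` has
volume at most `ε |K|` -/
def FewFlat {n : ℕ} (q c ε : ℝ) (K : Set (Fin n → ℝ)) : Prop :=
  volume {u | u ∈ K ∧ ∃ a ∈ K, ¬ DeepMidpoint (c * gauge (K - K) (a - u) ^ q) K a u} ≤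
    ENNReal.ofReal ε * volume K

/-- for every `a ∈ K` the set of the `u ∈ K` for which the midpoint of `a` and `u` is not `s`-deep has
volume at most `ε |K|` -/
def MostlyDeep {n : ℕ} (s ε : ℝ) (K : Set (Fin n → ℝ)) : Prop :=
  ∀ a ∈ K, volume {u | u ∈ K ∧ ¬ DeepMidpoint s K a u} ≤ ENNReal.ofReal ε * volume K

/-- the class of convex bodies of the theorem -/
def Round {n : ℕ} (q c s ε : ℝ) (K : Set (Fin n → ℝ)) : Prop :=
  Body K ∧ (UnifConvex q c K ∨ FewFlat q c ε K ∨ MostlyDeep s ε K)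

/-- convex bodies of constant width `w`: `K - K` is a Euclidean ball of radius `w` -/
def ConstantWidth {n : ℕ} (K : Set (Fin n → ℝ)) : Prop :=
  Body K ∧ ∃ w : ℝ, 0 < w ∧ K - K = {x | ∑ i, x i ^ 2 ≤ w ^ 2}

/-- `b_p(m) = (1+1/p)^((1+1/p)/2) (p/2π)^(1/(2p)) m^(1+1/(2p))` (it tends to `m` as `p → ∞`) -/
def bound (p m : ℝ) : ℝ :=
  ((1 + 1 / p) ^ ((1 + 1 / p) / 2) * (p / (2 * Real.pi)) ^ (1 / (2 * p))) * m ^ (1 + 1 / (2 * p))

open Pool.Agent.U330.NSC

lemma few_of_unif {n : ℕ} {q c ε : ℝ} {K : Set (Fin n → ℝ)} (h : UnifConvex q c K) :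
    FewFlat q c ε K := by
  have e : {u | u ∈ K ∧ ∃ a ∈ K, ¬ DeepMidpoint (c * gauge (K - K) (a - u) ^ q) K a u} = ∅ := by
    ext u
    simp only [Set.mem_ofPred_eq, Set.mem_empty_iff_false, iff_false, not_and, not_exists, not_not]
    intro hu a ha
    exact h a ha u hu
  unfold FewFlat
  rw [e, measure_empty]
  exact zero_le

lemma round_md {n : ℕ} (hn : 1 ≤ n) {q c s ε : ℝ} (hq : 0 ≤ q) (hc : 0 ≤ c) (hε : 0 ≤ ε)
    (hε2 : ε < 1 / 2) {K : Set (Fin n → ℝ)} (h : Round q c s ε K) :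
    MD (c * ((1 - 2 * ε) / 16) ^ q) ((1 + 2 * ε) / 4) K ∨ MD s ε K := by
  obtain ⟨hB, h | h | h⟩ := h
  · exact Or.inl (md_of_flat hn hB.2.1 hB.1 hB.2.2 hq hc hε hε2 (few_of_unif h))
  · exact Or.inl (md_of_flat hn hB.2.1 hB.1 hB.2.2 hq hc hε hε2 h)
  · exact Or.inr h

/-- one `t < 1` for the whole class -/
lemma exists_t {q c s ε : ℝ} (hq : 0 ≤ q) (hc : 0 < c) (hs : 0 < s) (hε : 0 ≤ ε)
    (hε2 : ε < 1 / 2) : ∃ t : ℝ, 1 / 2 ≤ t ∧ t < 1 ∧ ∀ n : ℕ, 1 ≤ n → ∀ K : Set (Fin n → ℝ),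
      Round q c s ε K → volume.real (K - K) ≤ (4 * t) ^ n * volume.real K := by
  have h1 : 0 < (1 - 2 * ε) / 16 := by linarith
  obtain ⟨t, ht, ht1, h⟩ := reg hs hε hε2
  obtain ⟨t', ht', ht1', h'⟩ := reg (s := c * ((1 - 2 * ε) / 16) ^ q) (ε := (1 + 2 * ε) / 4)
    (by positivity) (by positivity) (by linarith)
  refine ⟨max t t', le_max_of_le_left ht, max_lt ht1 ht1', fun n hn K hR => ?_⟩
  have hnn : 0 ≤ volume.real K := measureReal_nonneg
  rcases round_md hn hq hc.le hε hε2 hR with h2 | h2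
  · refine (h' n hn K hR.1.1 hR.1.2.1 hR.1.2.2 h2).trans (mul_le_mul_of_nonneg_right ?_ hnn)
    exact pow_le_pow_left₀ (by linarith) (by have := le_max_right t t'; linarith) n
  · refine (h n hn K hR.1.1 hR.1.2.1 hR.1.2.2 h2).trans (mul_le_mul_of_nonneg_right ?_ hnn)
    exact pow_le_pow_left₀ (by linarith) (by have := le_max_left t t'; linarith) n

/-- **The Rogers-Shephard and the non-symmetric `L^p`-Mahler inequality for uniformly convex
bodies.** -/
theorem result :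
    -- 1. the volume of the difference body of a body with deep midpoints
    (∀ s ε : ℝ, 0 < s → 0 ≤ ε → ε < 1 / 2 → ∀ (n : ℕ) (K : Set (Fin n → ℝ)), Body K →
      MostlyDeep s ε K →
        volume.real (K - K) ≤ (1 - 2 * ε)⁻¹ * (4 / (1 + 4 * s)) ^ n * volume.real K) ∧
    -- 2. uniformly convex bodies, bodies with few flat points and bodies of constant width
    (∀ q c ε : ℝ, 0 ≤ q → 0 ≤ c → 0 ≤ ε → ε < 1 / 2 → ∀ n : ℕ, 1 ≤ n → ∀ K : Set (Fin n → ℝ),
      Body K → (UnifConvex q c K → FewFlat q c ε K) ∧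
        (FewFlat q c ε K → MostlyDeep (c * ((1 - 2 * ε) / 16) ^ q) ((1 + 2 * ε) / 4) K)) ∧
    (∀ (n : ℕ) (K : Set (Fin n → ℝ)), ConstantWidth K → UnifConvex 2 (1 / 8) K) ∧
    -- 3. the inequality of Q1 for all `p ≥ p₀(q, c, s, ε)` in all dimensions
    (∀ q c s ε : ℝ, 0 ≤ q → 0 < c → 0 < s → 0 ≤ ε → ε < 1 / 2 → ∃ p₀ : ℝ, 0 < p₀ ∧
      ∀ p : ℝ, p₀ ≤ p → ∀ n : ℕ, 1 ≤ n → ∀ K : Set (Fin n → ℝ), Body K →
        (Round q c s ε K ∨ Round q c s ε (polar K)) →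
          simplexInf n p ≤ mahlerVolume p K ∧
          (¬ CentredSimplex K → simplexInf n p < mahlerVolume p K)) ∧
    -- 4. the exponential gain over the simplices (which have `κ = 4`, `m = e`)
    (∀ q c s ε : ℝ, 0 ≤ q → 0 < c → 0 < s → 0 ≤ ε → ε < 1 / 2 → ∃ κ m : ℝ, κ < 4 ∧
      Real.exp 1 < m ∧ ∀ n : ℕ, 1 ≤ n → ∀ K : Set (Fin n → ℝ), Body K →
        (Round q c s ε K → volume.real (K - K) ≤ κ ^ n * volume.real K) ∧
        (Round q c s ε K ∨ Round q c s ε (polar K) →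
          ENNReal.ofReal (m ^ n) ≤ mahlerInf K ∧
          ∀ p : ℝ, 0 < p → ENNReal.ofReal (bound p m ^ n) ≤ mahlerVolume p K)) := by
  refine ⟨fun s ε hs hε hε2 n K hB hMD => ?_, fun q c ε hq hc hε hε2 n hn K hB =>
    ⟨few_of_unif, fun h => md_of_flat hn hB.2.1 hB.1 hB.2.2 hq hc hε hε2 h⟩,
    fun n K hK => ?_, fun q c s ε hq hc hs hε hε2 => ?_, fun q c s ε hq hc hs hε hε2 => ?_⟩
  · refine diff_le hB.2.1 ?_ hs hε hε2 hMD
    intro h0
    exact (isOpen_interior.measure_pos volume hB.2.2).ne'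
      (le_antisymm ((measure_mono interior_subset).trans h0.le) zero_le)
  · obtain ⟨hB, w, hw, h⟩ := hK
    exact fun a ha u hu => cw hB.2.1 hB.1 hw h ha hu
  · obtain ⟨t, ht, ht1, hθ⟩ := exists_t hq hc hs hε hε2
    obtain ⟨p₀, h0, h⟩ := Pool.Agent.Y505.MA.all_dim ht ht1
    refine ⟨p₀, h0, fun p hp n hn K hK hR => h p hp n hn K hK.1 hK.2.1 hK.2.2 ?_⟩
    exact hR.imp (fun h1 => Or.inl (hθ n hn K h1)) (fun h1 => Or.inl (hθ n hn _ h1))
  · obtain ⟨t, ht, ht1, hθ⟩ := exists_t hq hc hs hε hε2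
    refine ⟨4 * t, Pool.Agent.Y505.MA.gg t, by linarith,
      Pool.Agent.Y505.MA.gg_gt (by linarith) ht1, fun n hn K hK => ⟨hθ n hn K, fun hR => ?_⟩⟩
    have hR' : Pool.Agent.Y505.MA.Reg t K ∨ Pool.Agent.Y505.MA.Reg t (H801NS.pol K) :=
      hR.imp (fun h1 => Or.inl (hθ n hn K h1)) (fun h1 => Or.inl (hθ n hn _ h1))
    exact ⟨Pool.Agent.Y505.MA.mah_ge hK.1 hK.2.1 hK.2.2 ht ht1.le hR', fun p hp =>
      Pool.Agent.Y505.MA.mahp_ge hK.1 hK.2.1 hK.2.2 ht ht1.le hR' hp⟩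

end Pool.Agent.Results.MP_5f4cdd_gt.UniformlyConvex

end
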